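import Pool.Agent.Q206.FT.Tr

/-!
# MP_db9079_lc: additive quantifiers over `F_p((t))` can be eliminated in favour of existential ones

Let `K = F_p((t))`, `O = F_p[[t]]`, and let `K0` be the relative algebraic closure of `F_p(t)` in
`K`, the henselisation of `F_p(t)`.  A system is a finite number of conditions
`c_k(x) - ∑_i ∑_{j < d} a_{k i j}(x) z_i ^ (p ^ j) ∈ e_k(x) O` on `z ∈ K ^ m`, where the
coefficients are polynomials in `x` over `F_p[t]` (`e_k = 0`: equations).

Images of additive polynomial maps `K ^ m → K ^ r` are closed, and `K` is its own dual by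
`(s, z) ↦ (s z)_0`.  So the system at `x` is unsolvable if and only if there is `s ∈ K ^ r` with
`(∑_k s_k c_k(x))_0 = 1` which annihilates all `∑ a_{k i j}(x) z_i ^ (p ^ j) + e_k(x) y_k`.  As the
adjoint of the Frobenius map and `z ↦ z_0` are existentially definable, unsolvability is an
existential condition on `x`, uniformly in `x`.
-/

set_option autoImplicit false

namespace Pool.Agent.Results.MP_db9079_lc.AdditiveSystems

open Finset

/-- the field `F_p((t))` -/
abbrev K (p : ℕ) : Type := LaurentSeries (ZMod p)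

/-- the valuation ring `F_p[[t]]` -/
def ValRing (p : ℕ) : Set (K p) :=
  Set.range (algebraMap (PowerSeries (ZMod p)) (LaurentSeries (ZMod p)))

/-- the elements of `K` which are algebraic over `F_p[t]` -/
def K0 (p : ℕ) [Fact p.Prime] : Set (K p) := {x | IsAlgebraic (Polynomial (ZMod p)) x}

/-- polynomials in the variables `σ` with coefficients in `F_p[t]` -/
abbrev Pol (p : ℕ) (σ : Type) : Type := MvPolynomial σ (Polynomial (ZMod p))

/-- the value of a polynomial at a point of `K ^ σ`, where `t` is the indeterminate of `K` -/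
noncomputable def val {p : ℕ} [Fact p.Prime] {σ : Type} (P : Pol p σ) (x : σ → K p) : K p :=
  MvPolynomial.aeval x P

/-- `S` is existentially definable in the field `K` with the constant `t` -/
def ExDef {p : ℕ} [Fact p.Prime] {σ : Type} (S : Set (σ → K p)) : Prop :=
  ∃ (m : ℕ) (Φ : Finset (Pol p (σ ⊕ Fin m))), ∀ x, x ∈ S ↔
    ∃ z : Fin m → K p, ∀ P ∈ Φ, val P (Sum.elim x z) = 0

/-- a system of `r` conditions on `m` unknowns; only the coefficients `a k i j` with `j < d`
are used -/
structure System (p : ℕ) (σ : Type) where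
  /-- the number of conditions -/
  r : ℕ
  /-- the number of unknowns -/
  m : ℕ
  /-- the exponents of the unknowns are `p ^ j`, `j < d` -/
  d : ℕ
  /-- the coefficients of the additive polynomials -/
  a : Fin r → Fin m → ℕ → Pol p σ
  /-- the constant terms -/
  c : Fin r → Pol p σ
  /-- the precisions (`0` for an equation) -/
  e : Fin r → Pol p σ

/-- the value of the additive polynomial in the condition `k`, at the point `x` -/
noncomputable def add {p : ℕ} [Fact p.Prime] {σ : Type} (S : System p σ) (x : σ → K p)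
    (z : Fin S.m → K p) (k : Fin S.r) : K p :=
  ∑ i, ∑ j ∈ range S.d, val (S.a k i j) x * z i ^ (p ^ j)

/-- Boolean combinations of systems -/
inductive Fml (p : ℕ) (σ : Type) : Type
  | sys (S : System p σ)
  | neg (φ : Fml p σ)
  | and (φ ψ : Fml p σ)

/-- truth in the valued field `M`, a subfield of `K` with the valuation ring `M ∩ O`, at a
point `x`; the formula `sys S` says that the system is solvable in `M` -/
def Holds {p : ℕ} [Fact p.Prime] {σ : Type} (M : Set (K p)) : Fml p σ → (σ → K p) → Prop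
  | .sys S, x => ∃ z : Fin S.m → K p, (∀ i, z i ∈ M) ∧
      ∀ k, ∃ y ∈ ValRing p, y ∈ M ∧ val (S.c k) x - add S x z k = val (S.e k) x * y
  | .neg φ, x => ¬ Holds M φ x
  | .and φ ψ, x => Holds M φ x ∧ Holds M ψ x

section

variable {p : ℕ} [Fact p.Prime] {σ : Type}

open Pool.Agent.Q206.FT

/-- the system of the library -/
def toSys (S : System p σ) : Sys p σ := ⟨S.r, S.m, S.d, S.a, S.c, S.e⟩

theorem mem_ValRing (y : K p) : y ∈ ValRing p ↔ ‖y‖ ≤ 1 := by
  rw [norm_le_one_iff]
  exact Pool.Agent.Y748.UF.mem_iff y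

theorem sol_iff (S : System p σ) (x : σ → K p) (z : Fin S.m → K p) :
    Sol (toSys S) x z ↔ ∀ k, ∃ y ∈ ValRing p, val (S.c k) x - add S x z k = val (S.e k) x * y := by
  constructor
  · intro h k
    obtain ⟨y, hy, h2⟩ := h k
    exact ⟨y, (mem_ValRing y).2 hy, h2⟩
  · intro h k
    obtain ⟨y, hy, h2⟩ := h k
    exact ⟨y, (mem_ValRing y).1 hy, h2⟩

theorem holds_sys (S : System p σ) (x : σ → K p) :
    Holds Set.univ (.sys S) x ↔ ∃ z, Sol (toSys S) x z := by
  constructor
  · rintro ⟨z, _, hz⟩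
    exact ⟨z, (sol_iff S x z).2 fun k => by
      obtain ⟨y, hy, _, h⟩ := hz k
      exact ⟨y, hy, h⟩⟩
  · rintro ⟨z, hz⟩
    refine ⟨z, fun _ => trivial, fun k => ?_⟩
    obtain ⟨y, hy, h⟩ := (sol_iff S x z).1 hz k
    exact ⟨y, hy, trivial, h⟩

theorem ed_both (φ : Fml p σ) : ED {x | Holds Set.univ φ x} ∧ ED {x | ¬ Holds Set.univ φ x} := by
  induction φ with
  | sys S =>
    exact ⟨(ED.solvable (toSys S)).congr fun x => holds_sys S x,
      (ED.unsolvable (toSys S)).congr fun x => not_congr (holds_sys S x)⟩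
  | neg φ ih =>
    refine ⟨ih.2, ih.1.congr fun x => ?_⟩
    exact not_not
  | and φ ψ ih1 ih2 =>
    refine ⟨ih1.1.and ih2.1, (ih1.2.or ih2.2).congr fun x => ?_⟩
    exact not_and_or

/-- solvability of a system with coefficients in `K0` does not depend on the field -/
theorem sys_K0 (S : System p σ) (x : σ → K p) (hx : ∀ i, x i ∈ K0 p) :
    Holds Set.univ (.sys S) x ↔ Holds (K0 p) (.sys S) x := by
  constructor
  · intro h
    let R : Set (σ ⊕ (Fin S.m ⊕ Fin S.r) → KK p) := {w | ∀ k, ‖w (.inr (.inr k))‖ ≤ 1 ∧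
      ev (S.c k) (fun i => w (.inl i)) - ∑ i, ∑ j ∈ range S.d, ev (S.a k i j) (fun i => w (.inl i)) *
        w (.inr (.inl i)) ^ (p ^ j) = ev (S.e k) (fun i => w (.inl i)) * w (.inr (.inr k))}
    have hR : ED R := by
      refine ED.all fun k => ED.and (ED.norm_le_one (IsPo.var _)) (ED.eq ?_ ?_)
      · refine IsPo.sub ?_ (IsPo.sum _ fun i => IsPo.sum _ fun j => IsPo.mul ?_ (IsPo.pow ?_ _))
        · exact IsPo.evc (S.c k) fun i => IsPo.var _
        · exact IsPo.evc (S.a k i j) fun i => IsPo.var _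
        · exact IsPo.var _
      · refine IsPo.mul ?_ (IsPo.var _)
        exact IsPo.evc (S.e k) fun i => IsPo.var _
    obtain ⟨z, _, hz⟩ := h
    choose y hy _ hzy using hz
    obtain ⟨w, hw1, hw2⟩ := ec_exists hR x (fun i => (mem_k0 _).2 (hx i))
      ⟨Sum.elim z y, fun k => ⟨(mem_ValRing _).1 (hy k), hzy k⟩⟩
    refine ⟨fun i => w (.inl i), fun i => (mem_k0 _).1 (hw1 _), fun k => ?_⟩
    exact ⟨w (.inr k), (mem_ValRing _).2 (hw2 k).1, (mem_k0 _).1 (hw1 _), (hw2 k).2⟩
  · rintro ⟨z, _, hz⟩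
    refine ⟨z, fun _ => trivial, fun k => ?_⟩
    obtain ⟨y, hy, _, h⟩ := hz k
    exact ⟨y, hy, trivial, h⟩

theorem fml_K0 (φ : Fml p σ) (x : σ → K p) (hx : ∀ i, x i ∈ K0 p) :
    Holds Set.univ φ x ↔ Holds (K0 p) φ x := by
  induction φ with
  | sys S => exact sys_K0 S x hx
  | neg φ ih => exact not_congr ih
  | and φ ψ ih1 ih2 => exact and_congr ih1 ih2

theorem unsolvable_adj (S : System p σ) (x : σ → K p) : ¬ Holds Set.univ (.sys S) x ↔
    ∃ s : Fin S.r → K p, (∑ k, s k * val (S.c k) x).coeff 0 = 1 ∧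
      (∀ k, ‖s k * val (S.e k) x‖ ≤ ‖(tt : KK p)‖) ∧
      ∀ i, adj S.d (fun j => ∑ k, s k * val (S.a k i j) x) = 0 :=
  (not_congr (holds_sys S x)).trans (unsolvable_iff (toSys S) x)

theorem norm_iff (w : K p) : ‖w‖ ≤ ‖(tt : KK p)‖ ↔
    ∃ y ∈ ValRing p, w = HahnSeries.single (1 : ℤ) (1 : ZMod p) * y := by
  constructor
  · intro h
    have ht : (tt : KK p) ≠ 0 := by
      intro h0
      have := norm_tt (p := p)
      rw [h0, norm_zero] at this
      norm_num at this
    refine ⟨w / tt, (mem_ValRing _).2 ?_, ?_⟩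
    · rw [norm_div]
      exact div_le_one_of_le₀ h (norm_nonneg _)
    · show _ = tt * (w / tt)
      field_simp
  · rintro ⟨y, hy, h⟩
    have h1 : w = tt * y := h
    rw [h1, norm_mul]
    exact mul_le_of_le_one_right (norm_nonneg _) ((mem_ValRing _).1 hy)

theorem ann_iff (S : System p σ) (x : σ → K p) (s : Fin S.r → K p) :
    (∀ i, adj S.d (fun j => ∑ k, s k * val (S.a k i j) x) = 0) ↔
      ∀ z, (∑ k, s k * add S x z k).coeff 0 = 0 := by
  have hsF : ∀ z : Fin S.m → K p, (∑ k, s k * add S x z k).coeff 0 =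
      ∑ i, (adj S.d (fun j => ∑ k, s k * val (S.a k i j) x) * z i).coeff 0 := by
    intro z
    have h1 : ∑ k, s k * add S x z k =
        ∑ i, ∑ j ∈ range S.d, (∑ k, s k * val (S.a k i j) x) * z i ^ (p ^ j) := by
      simp only [add, mul_sum, sum_mul]
      rw [sum_comm]
      refine sum_congr rfl fun i _ => ?_
      rw [sum_comm]
      refine sum_congr rfl fun j _ => sum_congr rfl fun k _ => ?_
      ring
    rw [h1, coeff_sum']
    exact sum_congr rfl fun i _ => adj_spec _ _ _
  constructor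
  · intro h z
    rw [hsF]
    refine sum_eq_zero fun i _ => ?_
    rw [h i, zero_mul, HahnSeries.coeff_zero]
  · intro h i
    apply eq_zero_of_coeff
    intro z
    have h1 := h (Pi.single i z)
    rw [hsF, sum_eq_single i] at h1
    · rw [Pi.single_eq_same] at h1
      exact h1
    · intro i' _ hi'
      rw [Pi.single_eq_of_ne hi', mul_zero, HahnSeries.coeff_zero]
    · intro h2
      exact absurd (mem_univ i) h2

end

theorem result (p : ℕ) [Fact p.Prime] :
    -- (1) duality: a system is unsolvable if and only if there is a dual vector `s`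
    (∀ (σ : Type) (S : System p σ) (x : σ → K p), ¬ Holds Set.univ (.sys S) x ↔
      ∃ s : Fin S.r → K p, (∑ k, s k * val (S.c k) x).coeff 0 = 1 ∧
        (∀ k, ∃ y ∈ ValRing p, s k * val (S.e k) x = HahnSeries.single (1 : ℤ) (1 : ZMod p) * y) ∧
        ∀ z, (∑ k, s k * add S x z k).coeff 0 = 0) ∧
    -- (2) Boolean combinations of systems, and their projections, are existentially definable
    (∀ (σ τ : Type) [Finite τ] (φ : Fml p (σ ⊕ τ)),
      ExDef {x | ∃ y, Holds Set.univ φ (Sum.elim x y)}) ∧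
    (∀ (σ : Type) (φ : Fml p σ), ExDef {x | Holds Set.univ φ x} ∧
      ExDef {x | ¬ Holds Set.univ φ x}) ∧
    -- (3) the henselisation of `F_p(t)` and `F_p((t))` satisfy the same formulas
    (∀ (σ τ : Type) [Finite τ] (φ : Fml p (σ ⊕ τ)) (x : σ → K p), (∀ i, x i ∈ K0 p) →
      ((∃ y, Holds Set.univ φ (Sum.elim x y)) ↔
        ∃ y, (∀ i, y i ∈ K0 p) ∧ Holds (K0 p) φ (Sum.elim x y))) := by
  open Pool.Agent.Q206.FT in
  refine ⟨fun σ S x => ?_, fun σ τ _ φ => ?_, fun σ φ => ed_both φ, fun σ τ _ φ x hx => ?_⟩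
  · rw [unsolvable_adj]
    exact exists_congr fun s => and_congr Iff.rfl
      (and_congr (forall_congr' fun k => norm_iff _) (ann_iff S x s))
  · exact (ed_both φ).1.proj
  · constructor
    · intro h
      obtain ⟨y, hy1, hy2⟩ := ec_exists (ed_both φ).1 x (fun i => (mem_k0 _).2 (hx i)) h
      refine ⟨y, fun i => (mem_k0 _).1 (hy1 i), (fml_K0 φ _ ?_).1 hy2⟩
      rintro (i | i)
      · exact hx i
      · exact (mem_k0 _).1 (hy1 i)
    · rintro ⟨y, hy1, hy2⟩
      refine ⟨y, (fml_K0 φ _ ?_).2 hy2⟩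
      rintro (i | i)
      · exact hx i
      · exact hy1 i

end Pool.Agent.Results.MP_db9079_lc.AdditiveSystems
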