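import Pool.Agent.Q206.FT.SepMain

/-!
# Separated formulas are existential formulas over `F_p((t))`

Let `K = F_p((t))` with its valuation `v`. A formula is separated if every polynomial in it contains
at most one bound variable; different polynomials may contain different bound variables, and the
atomic formulas compare the valuations of products of such polynomials and speak about their leading
coefficients. There is no restriction on the number and the alternation of the quantifiers; there
are also quantifiers over the roots of a nonzero polynomial, and the variables bound by them may be
used like free variables. Every separated formula is equivalent in `K` to an existential formula in
the language of fields with the constant `t`, and hence also to a universal formula.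
-/

set_option autoImplicit false

namespace Pool.Agent.Results.MP_db9079_lc.SeparatedAreExistential

open Pool.Agent.Q206.FT.SM

/-- Separated formulas and their negations are equivalent to existential formulas in the language
of fields with the constant `t`. -/
theorem result (p : ℕ) [Fact p.Prime] (σ τ : Type) [Finite τ] (φ : Fml p σ τ) :
    ExDef {w : σ ⊕ τ → K p | Holds Set.univ φ (fun i => w (.inl i)) fun i => w (.inr i)} ∧
    ExDef {w : σ ⊕ τ → K p | ¬ Holds Set.univ φ (fun i => w (.inl i)) fun i => w (.inr i)} :=
  main1 p σ τ φ

end Pool.Agent.Results.MP_db9079_lc.SeparatedAreExistential
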