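import Pool.Agent.Q206.FT.SepMain

/-!
# `F_p((t))` and the henselisation of `F_p(t)` satisfy the same separated formulas

Let `K = F_p((t))`, and let `K0` be the relative algebraic closure of `F_p(t)` in `K`, which is the
henselisation of `F_p(t)`. A separated formula (see the definitions) with parameters in `K0`, also
with a block of existential quantifiers over variables of the first kind in front, is true in `K` if
and only if it is true in `K0`.
-/

set_option autoImplicit false

namespace Pool.Agent.Results.MP_db9079_lc.SeparatedTransfer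

open Pool.Agent.Q206.FT.SM

/-- Transfer between `K` and `K0`. -/
theorem result (p : ℕ) [Fact p.Prime] (σ ρ τ : Type) [Finite ρ] [Finite τ]
    (φ : Fml p (σ ⊕ ρ) τ) (x : σ → K p) (y : τ → K p)
    (hx : ∀ i, x i ∈ K0 p) (hy : ∀ i, y i ∈ K0 p) :
    (∃ z, Holds Set.univ φ (Sum.elim x z) y) ↔
      ∃ z, (∀ i, z i ∈ K0 p) ∧ Holds (K0 p) φ (Sum.elim x z) y :=
  main3 p σ ρ τ φ x y hx hy

end Pool.Agent.Results.MP_db9079_lc.SeparatedTransfer
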