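import Pool.Agent.Q206.FT.SepMain

/-!
# Universal quantification over the roots of a polynomial over `F_p((t))`

Let `K = F_p((t))`. If `S` is a subset of `K ^ σ × K` which is existentially definable in the field
`K` with the constant `t` and `P(x, y)` is a polynomial over `F_p[t]`, then the set of the `x` such
that `P(x, y)` is not the zero polynomial in `y` and all roots `y` of `P(x, y)` in `K` satisfy
`(x, y) ∈ S` is existentially definable.
-/

set_option autoImplicit false

namespace Pool.Agent.Results.MP_db9079_lc.UniversalRoots

open Pool.Agent.Q206.FT.SM

/-- The existentially definable sets are closed under universal quantification over the roots of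
polynomials. -/
theorem result (p : ℕ) [Fact p.Prime] (σ : Type) (P : Pol p (σ ⊕ Unit))
    (S : Set (σ ⊕ Unit → K p)) (hS : ExDef S) :
    ExDef {x | (∃ y, val P (Sum.elim x fun _ => y) ≠ 0) ∧
      ∀ y, val P (Sum.elim x fun _ => y) = 0 → (Sum.elim x fun _ => y) ∈ S} :=
  main2 p σ P S hS

end Pool.Agent.Results.MP_db9079_lc.UniversalRoots
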